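import Mathlib
import Pool.Agent.Lib.helper32.SQL

set_option autoImplicit false

namespace Pool.Agent.Results.MP_f2a227_gt.Counter

open Pool.Agent.Lib.helper32.SQL
open scoped Cardinal

theorem sqL_eq : sqL X = ℵ₀ := by
  haveI : Countable (ℵ₀ : Cardinal.{0}).out := by
    rw [← Cardinal.mk_le_aleph0_iff, Cardinal.mk_out]
  have h : ℵ₀ ∈ {κ : Cardinal.{0} | ℵ₀ ≤ κ ∧ Sel X κ.out κ} := ⟨le_rfl, sel _⟩
  exact le_antisymm (csInf_le' h) (csInf_mem ⟨_, h⟩).1

theorem result : ∃ (X : Type) (_ : TopologicalSpace X), T2Space X ∧ sqL X = ℵ₀ ∧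
    2 ^ (sqL X * chi X) < #X := by
  refine ⟨X, inferInstance, inferInstance, sqL_eq, ?_⟩
  have h : ℵ₀ ≤ chi X := le_self_add
  rw [sqL_eq, Cardinal.mul_eq_right h h Cardinal.aleph0_ne_zero]
  exact big

end Pool.Agent.Results.MP_f2a227_gt.Counter
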